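import Mathlib

/-!
# Ordered Banach spaces: cones, increasing nets, upper bounds
-/

set_option autoImplicit false

namespace Pool.Agent.Q30.Cone

variable {X : Type*} [NormedAddCommGroup X] [NormedSpace ℝ X]

/-- `K` is a closed (pointed convex) cone in `X`. -/
structure IsClosedCone (K : Set X) : Prop where
  closed : IsClosed K
  add : ∀ x ∈ K, ∀ y ∈ K, x + y ∈ K
  smul : ∀ c : ℝ, 0 ≤ c → ∀ x ∈ K, c • x ∈ K
  pointed : K ∩ {x | -x ∈ K} = {0}

/-- the order `x ≤ y` of the cone `K`: `y - x ∈ K` -/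
def le (K : Set X) (x y : X) : Prop := y - x ∈ K

/-- the cone is normal -/
def IsNormalCone (K : Set X) : Prop :=
  ∃ C : ℝ, 1 ≤ C ∧ ∀ x y : X, le K 0 x → le K x y → ‖x‖ ≤ C * ‖y‖

/-- the net `x` is increasing -/
def Increasing {J : Type*} [Preorder J] (K : Set X) (x : J → X) : Prop :=
  ∀ i j : J, i ≤ j → le K (x i) (x j)

/-- `u` is an upper bound of the net `x` -/
def IsUB {J : Type*} (K : Set X) (x : J → X) (u : X) : Prop := ∀ j : J, le K (x j) u

/-- `u` is a minimal upper bound of the net `x` -/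
def IsMinUB {J : Type*} (K : Set X) (x : J → X) (u : X) : Prop :=
  IsUB K x u ∧ ∀ v : X, IsUB K x v → le K v u → v = u

/-- `u` is the smallest upper bound (supremum) of the net `x` -/
def IsSup {J : Type*} (K : Set X) (x : J → X) (u : X) : Prop :=
  IsUB K x u ∧ ∀ v : X, IsUB K x v → le K u v

end Pool.Agent.Q30.Cone
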