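import Pool.Agent.Q30.Cone.Space

/-!
# In `c₀ × ℝ²` every increasing net with a supremum converges in norm
-/

set_option autoImplicit false
open Filter Topology

namespace Pool.Agent.Q30.Cone

noncomputable section

open scoped ZeroAtInfty

variable {J : Type*} [Preorder J] [IsDirectedOrder J] [Nonempty J] {x : J → XX} {s : XX}

omit [IsDirectedOrder J] [Nonempty J] in
lemma mono_a (hx : Increasing KK x) : Monotone fun j => (x j).2.1 := fun _ _ h =>
  ((le_iff _ _).1 (hx _ _ h)).1

omit [IsDirectedOrder J] [Nonempty J] in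
lemma mono_b (hx : Increasing KK x) : Monotone fun j => (x j).2.2 := fun _ _ h =>
  ((le_iff _ _).1 (hx _ _ h)).2.1

lemma net_core (hx : Increasing KK x) (hs : IsSup KK x s) : Tendsto x atTop (𝓝 s) := by
  have hub : ∀ j, (x j).2.1 ≤ s.2.1 ∧ (x j).2.2 ≤ s.2.2 ∧
      ∀ k : ℕ, (x j).1 k - Real.sqrt ((s.2.1 - (x j).2.1) * (s.2.2 - (x j).2.2)) ≤ s.1 k :=
    fun j => (le_iff _ _).1 (hs.1 j)
  have hba : BddAbove (Set.range fun j => (x j).2.1) := ⟨s.2.1, by rintro _ ⟨j, rfl⟩; exact (hub j).1⟩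
  have hbb : BddAbove (Set.range fun j => (x j).2.2) := ⟨s.2.2, by rintro _ ⟨j, rfl⟩; exact (hub j).2.1⟩
  set α : ℝ := ⨆ j, (x j).2.1 with hα
  set β : ℝ := ⨆ j, (x j).2.2 with hβ
  have ha : Tendsto (fun j => (x j).2.1) atTop (𝓝 α) := tendsto_atTop_ciSup (mono_a hx) hba
  have hb : Tendsto (fun j => (x j).2.2) atTop (𝓝 β) := tendsto_atTop_ciSup (mono_b hx) hbb
  have haα : ∀ j, (x j).2.1 ≤ α := fun j => le_ciSup hba j
  have hbβ : ∀ j, (x j).2.2 ≤ β := fun j => le_ciSup hbb j
  have hαs : α ≤ s.2.1 := ciSup_le fun j => (hub j).1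
  have hβs : β ≤ s.2.2 := ciSup_le fun j => (hub j).2.1
  set δ : J → ℝ := fun j => Real.sqrt ((α - (x j).2.1) * (β - (x j).2.2)) with hδ
  have hδ0 : ∀ j, 0 ≤ δ j := fun j => Real.sqrt_nonneg _
  have hδt : Tendsto δ atTop (𝓝 0) := by
    have h1 : Tendsto (fun j => (α - (x j).2.1) * (β - (x j).2.2)) atTop (𝓝 ((α - α) * (β - β))) :=
      (ha.const_sub α).mul (hb.const_sub β)
    have h2 := (Real.continuous_sqrt.tendsto _).comp h1
    rw [sub_self, zero_mul, Real.sqrt_zero] at h2
    exact h2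
  -- the coordinates
  have hmono : ∀ k : ℕ, Monotone fun j => (x j).1 k - δ j := by
    intro k i j hij
    have h1 := (le_iff _ _).1 (hx i j hij)
    have h2 := h1.2.2 k
    have h3 := sqrt_superadd (a := (x j).2.1 - (x i).2.1) (b := (x j).2.2 - (x i).2.2)
      (c := α - (x j).2.1) (d := β - (x j).2.2) (by linarith [h1.1]) (by linarith [h1.2.1])
      (by linarith [haα j]) (by linarith [hbβ j])
    rw [show (x j).2.1 - (x i).2.1 + (α - (x j).2.1) = α - (x i).2.1 by ring,
      show (x j).2.2 - (x i).2.2 + (β - (x j).2.2) = β - (x i).2.2 by ring] at h3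
    simp only [hδ]
    linarith
  set γ : ℝ := Real.sqrt ((s.2.1 - α) * (s.2.2 - β)) with hγ
  -- upper bound of the coordinates
  have hbnd : ∀ k : ℕ, ∀ j, (x j).1 k - δ j ≤ s.1 k + γ := by
    intro k i
    -- pass to the limit j → ∞ in `x j k - δ j ≤ s k + √..`
    have h1 : ∀ j, i ≤ j → (x i).1 k - δ i ≤ s.1 k + Real.sqrt ((s.2.1 - (x j).2.1) * (s.2.2 - (x j).2.2)) := by
      intro j hij
      have h2 := hmono k hij
      have h3 := (hub j).2.2 k
      simp only at h2
      have h4 := hδ0 j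
      linarith
    have h2 : Tendsto (fun j => s.1 k + Real.sqrt ((s.2.1 - (x j).2.1) * (s.2.2 - (x j).2.2))) atTop
        (𝓝 (s.1 k + γ)) := by
      apply Tendsto.const_add
      have h3 : Tendsto (fun j => (s.2.1 - (x j).2.1) * (s.2.2 - (x j).2.2)) atTop
          (𝓝 ((s.2.1 - α) * (s.2.2 - β))) := (ha.const_sub _).mul (hb.const_sub _)
      exact (Real.continuous_sqrt.tendsto _).comp h3
    refine ge_of_tendsto h2 ?_
    filter_upwards [eventually_ge_atTop i] with j hj
    exact h1 j hj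
  have hbk : ∀ k : ℕ, BddAbove (Set.range fun j => (x j).1 k - δ j) := fun k =>
    ⟨s.1 k + γ, by rintro _ ⟨j, rfl⟩; exact hbnd k j⟩
  set ξ : ℕ → ℝ := fun k => ⨆ j, ((x j).1 k - δ j) with hξ
  have hξt' : ∀ k, Tendsto (fun j => (x j).1 k - δ j) atTop (𝓝 (ξ k)) := fun k =>
    tendsto_atTop_ciSup (hmono k) (hbk k)
  have hξt : ∀ k, Tendsto (fun j => (x j).1 k) atTop (𝓝 (ξ k)) := by
    intro k
    have := (hξt' k).add hδt
    simpa using this
  have hξle : ∀ k j, (x j).1 k - δ j ≤ ξ k := fun k j => le_ciSup (hbk k) j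
  have hξs : ∀ k, ξ k ≤ s.1 k + γ := fun k => ciSup_le fun j => hbnd k j
  -- sufficient condition for upper bounds
  have hUB : ∀ z : XX, α ≤ z.2.1 → β ≤ z.2.2 →
      (∀ k, ξ k ≤ z.1 k + Real.sqrt ((z.2.1 - α) * (z.2.2 - β))) → IsUB KK x z := by
    intro z h1 h2 h3 j
    rw [le_iff]
    refine ⟨(haα j).trans h1, (hbβ j).trans h2, fun k => ?_⟩
    have h4 := sqrt_superadd (a := z.2.1 - α) (b := z.2.2 - β)
      (c := α - (x j).2.1) (d := β - (x j).2.2) (by linarith) (by linarith)
      (by linarith [haα j]) (by linarith [hbβ j])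
    rw [show z.2.1 - α + (α - (x j).2.1) = z.2.1 - (x j).2.1 by ring,
      show z.2.2 - β + (β - (x j).2.2) = z.2.2 - (x j).2.2 by ring] at h4
    have h5 := h3 k
    have h6 := hξle k j
    simp only [hδ] at h6
    linarith
  -- the last two coordinates of `s`
  have hγ0 : 0 ≤ γ := Real.sqrt_nonneg _
  have hst : ∀ t : ℝ, 0 < t → s.2.1 ≤ α + t ∧ s.2.2 ≤ β + γ ^ 2 / t := by
    intro t ht
    have h1 : IsUB KK x ((s.1, α + t, β + γ ^ 2 / t) : XX) := by
      refine hUB _ (by simp only; linarith) (by simp only; have : 0 ≤ γ ^ 2 / t := by positivity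
                                                linarith) (fun k => ?_)
      simp only [add_sub_cancel_left]
      rw [mul_div_cancel₀ _ ht.ne', Real.sqrt_sq hγ0]
      exact hξs k
    have h2 := (le_iff _ _).1 (hs.2 _ h1)
    exact ⟨h2.1, h2.2.1⟩
  have e1 : s.2.1 = α := by
    refine le_antisymm (le_of_forall_pos_le_add fun t ht => (hst t ht).1) hαs
  have e2 : s.2.2 = β := by
    refine le_antisymm (le_of_forall_pos_le_add fun t ht => ?_) hβs
    have h1 := (hst ((γ ^ 2 + 1) / t) (by positivity)).2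
    have h2 : γ ^ 2 / ((γ ^ 2 + 1) / t) ≤ t := by
      rw [div_div_eq_mul_div, div_le_iff₀ (by positivity)]
      nlinarith
    linarith
  have e3 : γ = 0 := by
    rw [hγ, e1, sub_self, zero_mul, Real.sqrt_zero]
  have e4 : ∀ k, ξ k ≤ s.1 k := fun k => by
    have := hξs k
    rwa [e3, add_zero] at this
  have e5 : ∀ k, ξ k = s.1 k := by
    intro k
    refine le_antisymm (e4 k) ?_
    have hz : Tendsto (fun m => if m = k then ξ k else s.1 m) atTop (𝓝 0) := by
      refine (c0_tendsto s.1).congr' ?_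
      filter_upwards [eventually_gt_atTop k] with m hm
      rw [if_neg (by omega)]
    have h1 : IsUB KK x ((mk0 _ hz, α, β) : XX) := by
      refine hUB _ le_rfl le_rfl (fun m => ?_)
      simp only [sub_self, zero_mul, Real.sqrt_zero, add_zero, mk0_apply]
      split_ifs with h
      · rw [h]
      · exact e4 m
    have h2 := ((le_iff _ _).1 (hs.2 _ h1)).2.2 k
    simp only [mk0_apply, if_true, e1, e2, sub_self, zero_mul, Real.sqrt_zero, sub_zero] at h2
    exact h2
  -- convergence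
  rw [Prod.tendsto_iff]
  refine ⟨?_, ?_⟩
  swap
  · rw [Prod.tendsto_iff, e1, e2]
    exact ⟨ha, hb⟩
  rw [tendsto_iff_norm_sub_tendsto_zero, Metric.tendsto_nhds]
  intro ε hε
  obtain ⟨j0, hj0⟩ := (eventually_atTop.1 (hδt.eventually (gt_mem_nhds (by positivity : 0 < ε / 4))))
  obtain ⟨K1, hK1⟩ := eventually_atTop.1 ((c0_tendsto (x j0).1).eventually
    (lt_mem_nhds (by linarith : -(ε / 4) < 0)))
  obtain ⟨K2, hK2⟩ := eventually_atTop.1 ((c0_tendsto s.1).eventually
    (gt_mem_nhds (by positivity : 0 < ε / 8)))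
  have hfin : ∀ᶠ j in (atTop : Filter J), ∀ k ∈ Finset.range (K1 + K2), s.1 k - ε / 2 < (x j).1 k := by
    rw [Filter.eventually_all_finset]
    intro k _
    have := hξt k
    rw [e5 k] at this
    exact this.eventually (lt_mem_nhds (by linarith))
  filter_upwards [hfin, eventually_ge_atTop j0] with j h1 h2
  rw [Real.dist_eq, sub_zero, abs_of_nonneg (norm_nonneg _)]
  refine lt_of_le_of_lt (norm_le_of _ (by positivity : 0 ≤ 3 * ε / 4) (fun k => ?_)) (by linarith)
  have e6 : ((x j).1 - s.1) k = (x j).1 k - s.1 k := rfl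
  rw [e6, abs_le]
  have h3 := hj0 j h2
  have h4 := hξle k j
  rw [e5 k] at h4
  constructor
  · by_cases hk : k < K1 + K2
    · have := h1 k (Finset.mem_range.2 hk)
      linarith
    · have k1 := hK1 k (by omega)
      have k2 := hK2 k (by omega)
      have k3 := hmono k h2
      have k4 := hj0 j0 le_rfl
      have k5 := hδ0 j
      simp only at k3
      linarith
  · linarith

end

lemma uu_not_conv : ¬ ∃ l : XX, Tendsto uu atTop (𝓝 l) := by
  rintro ⟨l, hl⟩
  have h1 : Tendsto (fun n => uu (n + 1) - uu n) atTop (𝓝 (l - l)) :=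
    (hl.comp (tendsto_add_atTop_nat 1)).sub hl
  rw [sub_self] at h1
  have h2 := h1.norm
  rw [norm_zero] at h2
  have h3 : ∀ n, (1 : ℝ) ≤ ‖uu (n + 1) - uu n‖ := by
    intro n
    refine le_trans ?_ (norm_fst_le _)
    refine le_trans ?_ (abs_apply_le _ n)
    have e : (uu (n + 1) - uu n).1 n = (uu (n + 1)).1 n - (uu n).1 n := rfl
    rw [e, uu_fst, uu_fst, if_pos (Nat.lt_succ_self n), if_neg (lt_irrefl n)]
    norm_num
  have := ge_of_tendsto' h2 h3
  linarith

end Pool.Agent.Q30.Cone
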