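import Pool.Agent.Q30.Cone.Defs

/-!
# The space `c₀ × ℝ²` with the cone `a, b ≥ 0`, `x k ≥ -√(a b)`
-/

set_option autoImplicit false
open Filter Topology

namespace Pool.Agent.Q30.Cone

noncomputable section

open scoped ZeroAtInfty

/-- the space -/
abbrev XX : Type := C₀(ℕ, ℝ) × ℝ × ℝ

/-- the cone -/
def KK : Set XX := {p | 0 ≤ p.2.1 ∧ 0 ≤ p.2.2 ∧ ∀ k : ℕ, -Real.sqrt (p.2.1 * p.2.2) ≤ p.1 k}

lemma abs_apply_le (f : C₀(ℕ, ℝ)) (k : ℕ) : |f k| ≤ ‖f‖ := by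
  rw [← ZeroAtInftyContinuousMap.norm_toBCF_eq_norm]
  exact f.toBCF.norm_coe_le_norm k

lemma norm_le_of (f : C₀(ℕ, ℝ)) {C : ℝ} (hC : 0 ≤ C) (h : ∀ k, |f k| ≤ C) : ‖f‖ ≤ C := by
  rw [← ZeroAtInftyContinuousMap.norm_toBCF_eq_norm, BoundedContinuousFunction.norm_le hC]
  exact h

lemma c0_tendsto (f : C₀(ℕ, ℝ)) : Tendsto (fun k => f k) atTop (𝓝 0) := by
  have := f.zero_at_infty'
  rw [cocompact_eq_cofinite, Nat.cofinite_eq_atTop] at this
  exact this

/-- a null sequence as an element of `c₀` -/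
def mk0 (f : ℕ → ℝ) (hf : Tendsto f atTop (𝓝 0)) : C₀(ℕ, ℝ) :=
  ⟨⟨f, continuous_of_discreteTopology⟩, by rw [cocompact_eq_cofinite, Nat.cofinite_eq_atTop]; exact hf⟩

@[simp] lemma mk0_apply (f : ℕ → ℝ) (hf : Tendsto f atTop (𝓝 0)) (k : ℕ) : mk0 f hf k = f k := rfl

lemma ev_cont (k : ℕ) : Continuous (fun p : XX => p.1 k) := by
  have h : Continuous fun f : C₀(ℕ, ℝ) => f k := by
    have h1 : Continuous (ZeroAtInftyContinuousMap.toBCF : C₀(ℕ, ℝ) → BoundedContinuousFunction ℕ ℝ) :=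
      ZeroAtInftyContinuousMap.isometry_toBCF.continuous
    have h2 : Continuous fun g : BoundedContinuousFunction ℕ ℝ => g k := continuous_eval_const k
    exact h2.comp h1
  exact h.comp continuous_fst

lemma sqrt_superadd {a b c d : ℝ} (ha : 0 ≤ a) (hb : 0 ≤ b) (hc : 0 ≤ c) (hd : 0 ≤ d) :
    Real.sqrt (a * b) + Real.sqrt (c * d) ≤ Real.sqrt ((a + c) * (b + d)) := by
  apply Real.le_sqrt_of_sq_le
  have h1 : Real.sqrt (a * b) ^ 2 = a * b := Real.sq_sqrt (mul_nonneg ha hb)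
  have h2 : Real.sqrt (c * d) ^ 2 = c * d := Real.sq_sqrt (mul_nonneg hc hd)
  have h3 : 2 * (Real.sqrt (a * b) * Real.sqrt (c * d)) ≤ a * d + c * b := by
    have h4 : Real.sqrt (a * b) * Real.sqrt (c * d) = Real.sqrt (a * d) * Real.sqrt (c * b) := by
      rw [← Real.sqrt_mul (mul_nonneg ha hb), ← Real.sqrt_mul (mul_nonneg ha hd)]
      congr 1
      ring
    rw [h4]
    have h5 : Real.sqrt (a * d) ^ 2 = a * d := Real.sq_sqrt (mul_nonneg ha hd)
    have h6 : Real.sqrt (c * b) ^ 2 = c * b := Real.sq_sqrt (mul_nonneg hc hb)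
    nlinarith [sq_nonneg (Real.sqrt (a * d) - Real.sqrt (c * b))]
  nlinarith

lemma KK_closed : IsClosed KK := by
  have h1 : KK = {p : XX | 0 ≤ p.2.1} ∩ ({p : XX | 0 ≤ p.2.2} ∩
      ⋂ k : ℕ, {p : XX | -Real.sqrt (p.2.1 * p.2.2) ≤ p.1 k}) := by
    ext p
    simp [KK]
  rw [h1]
  refine IsClosed.inter (isClosed_le continuous_const (by fun_prop)) (IsClosed.inter
    (isClosed_le continuous_const (by fun_prop)) (isClosed_iInter fun k => isClosed_le ?_ (ev_cont k)))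
  fun_prop

lemma KK_add {x y : XX} (hx : x ∈ KK) (hy : y ∈ KK) : x + y ∈ KK := by
  obtain ⟨h1, h2, h3⟩ := hx
  obtain ⟨g1, g2, g3⟩ := hy
  refine ⟨add_nonneg h1 g1, add_nonneg h2 g2, fun k => ?_⟩
  have := sqrt_superadd h1 h2 g1 g2
  have e : (x + y).1 k = x.1 k + y.1 k := rfl
  rw [e]
  have e2 : (x + y).2.1 = x.2.1 + y.2.1 := rfl
  have e3 : (x + y).2.2 = x.2.2 + y.2.2 := rfl
  rw [e2, e3]
  linarith [h3 k, g3 k]

lemma KK_smul {c : ℝ} (hc : 0 ≤ c) {x : XX} (hx : x ∈ KK) : c • x ∈ KK := by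
  obtain ⟨h1, h2, h3⟩ := hx
  refine ⟨mul_nonneg hc h1, mul_nonneg hc h2, fun k => ?_⟩
  have e : (c • x).1 k = c * x.1 k := rfl
  have e2 : (c • x).2.1 = c * x.2.1 := rfl
  have e3 : (c • x).2.2 = c * x.2.2 := rfl
  rw [e, e2, e3]
  have h4 : Real.sqrt (c * x.2.1 * (c * x.2.2)) = c * Real.sqrt (x.2.1 * x.2.2) := by
    rw [show c * x.2.1 * (c * x.2.2) = c ^ 2 * (x.2.1 * x.2.2) by ring, Real.sqrt_mul (sq_nonneg c),
      Real.sqrt_sq hc]
  rw [h4]
  nlinarith [h3 k]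

lemma KK_cone : IsClosedCone KK where
  closed := KK_closed
  add := fun _ hx _ hy => KK_add hx hy
  smul := fun _ hc _ hx => KK_smul hc hx
  pointed := by
    ext x
    simp only [Set.mem_inter_iff, Set.mem_ofPred_eq, Set.mem_singleton_iff]
    constructor
    · rintro ⟨⟨h1, h2, h3⟩, g1, g2, g3⟩
      have e1 : (-x).2.1 = -x.2.1 := rfl
      have e2 : (-x).2.2 = -x.2.2 := rfl
      rw [e1] at g1
      rw [e2] at g2
      have a0 : x.2.1 = 0 := by linarith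
      have b0 : x.2.2 = 0 := by linarith
      refine Prod.ext (ZeroAtInftyContinuousMap.ext fun k => ?_) (Prod.ext a0 b0)
      have h4 := h3 k
      have g4 := g3 k
      rw [e1, e2] at g4
      have e3 : (-x).1 k = -(x.1 k) := rfl
      rw [e3] at g4
      simp only [a0, b0] at h4 g4
      simp at h4 g4
      simp only [Prod.fst_zero, ZeroAtInftyContinuousMap.zero_apply]
      linarith
    · rintro rfl
      have h0 : (0 : XX) ∈ KK := ⟨le_rfl, le_rfl, fun k => by simp⟩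
      exact ⟨h0, by rw [neg_zero]; exact h0⟩

lemma le_iff (x y : XX) : le KK x y ↔ x.2.1 ≤ y.2.1 ∧ x.2.2 ≤ y.2.2 ∧
    ∀ k : ℕ, x.1 k - Real.sqrt ((y.2.1 - x.2.1) * (y.2.2 - x.2.2)) ≤ y.1 k := by
  unfold le KK
  simp only [Set.mem_ofPred_eq]
  have e1 : (y - x).2.1 = y.2.1 - x.2.1 := rfl
  have e2 : (y - x).2.2 = y.2.2 - x.2.2 := rfl
  have e3 : ∀ k, (y - x).1 k = y.1 k - x.1 k := fun _ => rfl
  rw [e1, e2, sub_nonneg, sub_nonneg]
  refine and_congr Iff.rfl (and_congr Iff.rfl (forall_congr' fun k => ?_))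
  rw [e3]
  constructor <;> intro h <;> linarith

lemma KK_normal : IsNormalCone KK := by
  refine ⟨2, by norm_num, fun x y h0x hxy => ?_⟩
  rw [le_iff] at h0x hxy
  obtain ⟨h1, h2, h3⟩ := h0x
  obtain ⟨g1, g2, g3⟩ := hxy
  simp only [Prod.snd_zero, Prod.fst_zero, sub_zero, ZeroAtInftyContinuousMap.zero_apply] at h1 h2 h3
  have hy1 : |y.2.1| ≤ ‖y‖ := (norm_fst_le y.2).trans (norm_snd_le y)
  have hy2 : |y.2.2| ≤ ‖y‖ := (norm_snd_le y.2).trans (norm_snd_le y)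
  have hyf : ∀ k, |y.1 k| ≤ ‖y‖ := fun k => (abs_apply_le y.1 k).trans (norm_fst_le y)
  rw [abs_le] at hy1 hy2
  have hn : 0 ≤ ‖y‖ := norm_nonneg y
  have hs : ∀ a b : ℝ, 0 ≤ a → 0 ≤ b → a ≤ ‖y‖ → b ≤ ‖y‖ → Real.sqrt (a * b) ≤ ‖y‖ := by
    intro a b ha hb hay hby
    rw [Real.sqrt_le_left hn]
    nlinarith [mul_le_mul hay hby hb hn]
  rw [Prod.norm_def, Prod.norm_def]
  refine max_le ?_ (max_le ?_ ?_)
  · apply norm_le_of _ (by linarith)
    intro k
    rw [abs_le]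
    have k1 := hs x.2.1 x.2.2 h1 h2 (by linarith) (by linarith)
    have k2 := hs (y.2.1 - x.2.1) (y.2.2 - x.2.2) (by linarith) (by linarith) (by linarith) (by linarith)
    have k3 := h3 k
    have k4 := g3 k
    have k5 := hyf k
    rw [abs_le] at k5
    constructor <;> linarith
  · rw [Real.norm_of_nonneg h1]
    linarith
  · rw [Real.norm_of_nonneg h2]
    linarith

/-- the increasing sequence `(1_{[0,n)}, 0, 0)` -/
def uu (n : ℕ) : XX := (mk0 (fun k => if k < n then 1 else 0) (by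
  refine tendsto_const_nhds.congr' ?_
  filter_upwards [eventually_ge_atTop n] with k hk
  rw [if_neg (by omega)]), 0, 0)

lemma uu_fst (n k : ℕ) : (uu n).1 k = if k < n then 1 else 0 := rfl

lemma uu_incr : Increasing KK uu := by
  intro i j hij
  rw [le_iff]
  refine ⟨le_rfl, le_rfl, fun k => ?_⟩
  rw [uu_fst, uu_fst]
  have : (uu j).2.1 - (uu i).2.1 = 0 := by simp [uu]
  rw [this, zero_mul, Real.sqrt_zero, sub_zero]
  split_ifs with h1 h2
  · exact le_rfl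
  · omega
  · exact zero_le_one
  · exact le_rfl

lemma uu_UB (v : XX) : IsUB KK uu v ↔ 0 ≤ v.2.1 ∧ 0 ≤ v.2.2 ∧
    ∀ k, 1 - Real.sqrt (v.2.1 * v.2.2) ≤ v.1 k := by
  have e1 : ∀ n, v.2.1 - (uu n).2.1 = v.2.1 := fun n => by simp [uu]
  have e2 : ∀ n, v.2.2 - (uu n).2.2 = v.2.2 := fun n => by simp [uu]
  constructor
  · intro h
    have h0 := (le_iff _ _).1 (h 0)
    refine ⟨h0.1, h0.2.1, fun k => ?_⟩
    have h1 := ((le_iff _ _).1 (h (k + 1))).2.2 k
    rw [e1, e2, uu_fst, if_pos (Nat.lt_succ_self k)] at h1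
    exact h1
  · rintro ⟨h1, h2, h3⟩ n
    rw [le_iff]
    refine ⟨h1, h2, fun k => ?_⟩
    rw [e1, e2, uu_fst]
    have := h3 k
    split_ifs <;> linarith

lemma UB_sqrt {v : XX} (h : IsUB KK uu v) : 1 ≤ Real.sqrt (v.2.1 * v.2.2) := by
  rw [uu_UB] at h
  have h1 : Tendsto (fun k => v.1 k) atTop (𝓝 0) := c0_tendsto v.1
  have := ge_of_tendsto' h1 h.2.2
  linarith

lemma minUB {a b : ℝ} (ha : 0 < a) (hb : 0 < b) (hab : a * b = 1) : IsMinUB KK uu ((0, a, b) : XX) := by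
  refine ⟨?_, fun v hv hle => ?_⟩
  · rw [uu_UB]
    refine ⟨ha.le, hb.le, fun k => ?_⟩
    simp only [hab, Real.sqrt_one, sub_self, ZeroAtInftyContinuousMap.zero_apply]
    exact le_rfl
  · have h1 := UB_sqrt hv
    have h2 := (uu_UB v).1 hv
    rw [le_iff] at hle
    obtain ⟨g1, g2, g3⟩ := hle
    simp only at g1 g2 g3
    have h3 : 1 ≤ v.2.1 * v.2.2 := by
      have := Real.sq_sqrt (mul_nonneg h2.1 h2.2.1)
      nlinarith
    have h4 : v.2.1 = a := by nlinarith [mul_le_mul_of_nonneg_right g1 h2.2.1, mul_le_mul_of_nonneg_left g2 ha.le]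
    have h5 : v.2.2 = b := by
      rw [h4] at h3
      have : b ≤ v.2.2 := by
        by_contra hcon
        push Not at hcon
        nlinarith
      linarith
    refine Prod.ext (ZeroAtInftyContinuousMap.ext fun k => ?_) (Prod.ext h4 h5)
    have h6 := g3 k
    have h7 := h2.2.2 k
    rw [h4, sub_self, zero_mul, Real.sqrt_zero, sub_zero] at h6
    rw [h4, h5, hab, Real.sqrt_one, sub_self] at h7
    simp only [ZeroAtInftyContinuousMap.zero_apply] at h6 ⊢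
    linarith

lemma no_sup : ¬ ∃ s : XX, IsSup KK uu s := by
  rintro ⟨s, hs1, hs2⟩
  have m1 := minUB (a := 1) (b := 1) one_pos one_pos (by norm_num)
  have m2 := minUB (a := 2) (b := 1 / 2) (by norm_num) (by norm_num) (by norm_num)
  have e1 := m1.2 s hs1 (hs2 _ m1.1)
  have e2 := m2.2 s hs1 (hs2 _ m2.1)
  rw [e1] at e2
  have := congrArg (fun p : XX => p.2.1) e2
  norm_num at this

end

end Pool.Agent.Q30.Cone
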